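import Mathlib
import Pool.Agent.H69.Wr5

namespace Pool.Agent.Results.MP_e16db3_al.Undec

open Pool.Agent.H69.Wr

/-- There are an alphabet `Fin d` (`d ≥ 2`), a generating set `Fin m` and fixed permutations
`π s` such that no algorithm decides, given the words `w s x`, whether the group defined by the
wreath recursion `s ↦ π s (w s x)_x` on the free group is contracting. -/
theorem result : ∃ (d m : ℕ) (π : Fin m → Equiv.Perm (Fin d)), 2 ≤ d ∧
    ¬ ComputablePred fun w : Fin m → Fin d → List (Fin m × Bool) => Contracting (Phi π w) :=
  undec

end Pool.Agent.Results.MP_e16db3_al.Undec
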